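import Pool.Agent.N549.AB.Stm2
import Pool.Agent.N27.CG.Cnt

/-!
# Project HG (helper549), PAIRC (helper896): codes which contain given words
-/

set_option autoImplicit false

namespace Pool.Agent.N896.DC.PairC

open MeasureTheory Finset
open scoped ENNReal NNReal
open Pool.Agent.N549.CG
open Pool.Agent.N549.AB
open Pool.Agent.N549.HG (A Z Adm)
open Pool.Agent.N27.CG.Cnt

variable {n D : ℕ}

/-- the codes in the set `B` -/
def cd (D : ℕ) (B : Finset (W n)) : Finset (Finset (W n)) :=
  B.powerset.filter fun C => ∀ x ∈ C, ∀ y ∈ C, x ≠ y → D < hammingDist x y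

theorem mem_cd {B : Finset (W n)} {C : Finset (W n)} :
    C ∈ cd D B ↔ C ⊆ B ∧ ∀ x ∈ C, ∀ y ∈ C, x ≠ y → D < hammingDist x y := by
  unfold cd
  rw [mem_filter, mem_powerset]

theorem cd_size (B : Finset (W n)) (k : ℕ) : (cd D B).filter (fun C => #C = k) = cod D B k := by
  ext C
  rw [mem_filter, mem_cd, mem_cod]
  constructor
  · rintro ⟨⟨h1, h2⟩, h3⟩
    exact ⟨h1, h3, h2⟩
  · rintro ⟨h1, h3, h2⟩
    exact ⟨⟨h1, h2⟩, h3⟩

theorem card_W : Fintype.card (W n) = 2 ^ n := by simp [W]

theorem sum_cd (B : Finset (W n)) (z : ℝ) :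
    ∑ C ∈ cd D B, z ^ #C = ∑ k ∈ range (2 ^ n + 1), z ^ k * #(cod D B k) := by
  rw [← Finset.sum_fiberwise_of_maps_to (g := fun C => #C) (t := range (2 ^ n + 1))]
  · refine Finset.sum_congr rfl fun k _ => ?_
    rw [cd_size]
    have h : ∀ C ∈ cod D B k, z ^ #C = z ^ k := by
      intro C hC
      rw [(mem_cod.1 hC).2.1]
    rw [Finset.sum_congr rfl h, Finset.sum_const, nsmul_eq_mul, mul_comm]
  · intro C _
    rw [mem_range]
    have := Finset.card_le_univ C
    rw [card_W] at this
    omega

theorem cod_big (B : Finset (W n)) {k : ℕ} (hk : 2 ^ n < k) : #(cod D B k) = 0 := by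
  rw [card_eq_zero, eq_empty_iff_forall_notMem]
  intro C hC
  have h1 := (mem_cod.1 hC).2.1
  have := Finset.card_le_univ C
  rw [card_W] at this
  omega

theorem term (B : Finset (W n)) {z : ℝ} (hz : 0 ≤ z) (k : ℕ) :
    A (unif n) (cF n D) k (fun y => ENNReal.ofReal (z * 2 ^ n) * (if y ∈ B then 1 else 0)) /
      (k.factorial : ℝ≥0∞) = ENNReal.ofReal (z ^ k * #(cod D B k)) := by
  have := prob n
  rw [Pool.Agent.N549.HG.A_smul (gas n D).adm _ k Measurable.of_discrete, A_cod]
  have h1 : ENNReal.ofReal (z * 2 ^ n) = ENNReal.ofReal z * 2 ^ n := by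
    rw [ENNReal.ofReal_mul hz, ENNReal.ofReal_pow (by norm_num), ENNReal.ofReal_ofNat]
  have h2 : ENNReal.ofReal (z * 2 ^ n) ^ k * (((2 : ℝ≥0∞) ^ n)⁻¹) ^ k = ENNReal.ofReal z ^ k := by
    rw [h1, ← mul_pow, mul_assoc, ENNReal.mul_inv_cancel (two_ne n) (two_top n), mul_one]
  have h3 : (k.factorial : ℝ≥0∞) ≠ 0 := by
    exact_mod_cast Nat.factorial_ne_zero k
  have h4 : (k.factorial : ℝ≥0∞) ≠ ∞ := ENNReal.natCast_ne_top _
  rw [← mul_assoc, h2, ENNReal.ofReal_mul (by positivity), ENNReal.ofReal_pow hz,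
    ENNReal.ofReal_natCast, mul_div_assoc]
  congr 1
  push_cast
  rw [mul_comm (k.factorial : ℝ≥0∞), ENNReal.mul_div_cancel_right h3 h4]

theorem Zcd (B : Finset (W n)) {z : ℝ} (hz : 0 ≤ z) :
    (Z (unif n) (cF n D) (fun y => ENNReal.ofReal (z * 2 ^ n) *
      (if y ∈ B then 1 else 0))).toReal = ∑ C ∈ cd D B, z ^ #C := by
  unfold Z
  simp only [term B hz]
  rw [sum_cd, tsum_eq_sum (s := range (2 ^ n + 1)), ENNReal.toReal_sum]
  · refine Finset.sum_congr rfl fun k _ => ?_
    rw [ENNReal.toReal_ofReal (by positivity)]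
  · intro k _
    exact ENNReal.ofReal_ne_top
  · intro k hk
    rw [mem_range, not_lt] at hk
    rw [cod_big B (by omega)]
    simp

theorem link (B : Finset (W n)) {u : W n} (hu : u ∈ B) (z : ℝ) (P : Finset (W n) → Prop)
    [DecidablePred P] :
    ∑ C ∈ (cd D B).filter (fun C => u ∈ C ∧ P C), z ^ #C =
      z * ∑ C ∈ (cd D (away D B u)).filter (fun C => P (insert u C)), z ^ #C := by
  rw [Finset.mul_sum]
  have hnot : ∀ C ∈ cd D (away D B u), u ∉ C := by
    intro C hC h
    have h1 := (mem_cd.1 hC).1 h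
    unfold away at h1
    rw [mem_filter, hammingDist_self] at h1
    omega
  refine Finset.sum_bij' (fun C _ => C.erase u) (fun C _ => insert u C) ?_ ?_ ?_ ?_ ?_
  · intro C hC
    rw [mem_filter, mem_cd] at hC
    obtain ⟨⟨h1, h3⟩, h4, h5⟩ := hC
    rw [mem_filter, mem_cd]
    refine ⟨⟨?_, ?_⟩, ?_⟩
    · intro y hy
      rw [mem_erase] at hy
      unfold away
      rw [mem_filter]
      exact ⟨h1 hy.2, h3 u h4 y hy.2 hy.1.symm⟩
    · intro x hx y hy
      exact h3 x (mem_of_mem_erase hx) y (mem_of_mem_erase hy)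
    · rwa [insert_erase h4]
  · intro C hC
    rw [mem_filter] at hC
    obtain ⟨h0, h5⟩ := hC
    obtain ⟨h1, h3⟩ := mem_cd.1 h0
    have h4 : ∀ y ∈ C, y ∈ B ∧ D < hammingDist u y := by
      intro y hy
      have := h1 hy
      unfold away at this
      rwa [mem_filter] at this
    rw [mem_filter, mem_cd]
    refine ⟨⟨?_, ?_⟩, mem_insert_self _ _, h5⟩
    · intro y hy
      rcases mem_insert.1 hy with rfl | hy
      · exact hu
      · exact (h4 y hy).1
    · intro x hx y hy hxy
      rcases mem_insert.1 hx with hx1 | hx1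
      · rcases mem_insert.1 hy with hy1 | hy1
        · exact absurd (hx1.trans hy1.symm) hxy
        · rw [hx1]
          exact (h4 y hy1).2
      · rcases mem_insert.1 hy with hy1 | hy1
        · rw [hammingDist_comm, hy1]
          exact (h4 x hx1).2
        · exact h3 x hx1 y hy1 hxy
  · intro C hC
    rw [mem_filter] at hC
    exact insert_erase hC.2.1
  · intro C hC
    exact erase_insert (hnot C (mem_filter.1 hC).1)
  · intro C hC
    rw [mem_filter] at hC
    have h1 : #C = #(C.erase u) + 1 := (card_erase_add_one hC.2.1).symm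
    rw [h1, pow_succ, mul_comm]

theorem pairc : S_PAIRC := by
  intro n D z hz u v
  refine ⟨?_, ?_, ?_⟩
  · have h1 : (fun y => ENNReal.ofReal (z * 2 ^ n) * cF n D u y) = fun y =>
        ENNReal.ofReal (z * 2 ^ n) * (if y ∈ away D (univ : Finset (W n)) u then 1 else 0) := by
      funext y
      congr 1
      unfold cF away
      by_cases hd : hammingDist u y ≤ D
      · rw [if_pos hd, if_neg (by rw [mem_filter]; omega)]
      · rw [if_neg hd, if_pos (by rw [mem_filter]; exact ⟨mem_univ _, by omega⟩)]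
    unfold Z1
    rw [h1, Zcd _ hz]
    have h2 := link (D := D) (univ : Finset (W n)) (mem_univ u) z (fun _ => True)
    rw [Finset.filter_true_of_mem (s := cd D (away D univ u)) (fun _ _ => trivial)] at h2
    rw [← h2]
    unfold PC cd
    rw [powerset_univ, filter_filter]
    refine Finset.sum_congr ?_ fun _ _ => rfl
    ext C
    simp only [mem_filter, mem_univ, true_and, and_true, and_self]
  · intro huv
    have h1 : (fun y => ENNReal.ofReal (z * 2 ^ n) * (cF n D u y * cF n D v y)) = fun y =>
        ENNReal.ofReal (z * 2 ^ n) *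
          (if y ∈ away D (away D (univ : Finset (W n)) u) v then 1 else 0) := by
      funext y
      congr 1
      unfold cF away
      by_cases hd : hammingDist u y ≤ D <;> by_cases hd' : hammingDist v y ≤ D <;>
        simp [hd, hd']
    have huv' : v ≠ u := by
      rintro rfl
      rw [hammingDist_self] at huv
      omega
    have hv : v ∈ away D (univ : Finset (W n)) u := by
      unfold away
      rw [mem_filter]
      exact ⟨mem_univ _, huv⟩
    unfold Z2
    rw [h1, Zcd _ hz]
    have h2 := link (D := D) (univ : Finset (W n)) (mem_univ u) z (fun C => v ∈ C)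
    have h3 := link (D := D) (away D (univ : Finset (W n)) u) hv z (fun _ => True)
    rw [Finset.filter_true_of_mem (s := cd D (away D (away D univ u) v))
      (fun _ _ => trivial)] at h3
    have h4 : (cd D (away D (univ : Finset (W n)) u)).filter (fun C => v ∈ insert u C) =
        (cd D (away D (univ : Finset (W n)) u)).filter (fun C => v ∈ C ∧ True) := by
      refine filter_congr fun C _ => ?_
      rw [mem_insert, and_true]
      exact or_iff_right huv'
    rw [h4, h3] at h2
    rw [pow_two, mul_assoc, ← h2]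
    unfold PC cd
    rw [powerset_univ, filter_filter]
  · have h1 := sum_cd (D := D) (univ : Finset (W n)) z
    unfold cd at h1
    rw [powerset_univ] at h1
    rw [h1]
    unfold ZC
    refine Finset.sum_congr rfl fun k _ => ?_
    rw [cod_univ, mul_comm]

end Pool.Agent.N896.DC.PairC
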